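import Pool.Agent.H98.P2.Crit

/-!
# Existence of the quenched connective constant: every density for `d = 2`, every density other than the critical one for `d ≥ 3`

Definitions used (all in `Pool/Agent/H41/QC/FinDefs.lean`, `Final2.lean`,
`Pool/Agent/H17/IIC/Resample.lean`):

* `prodBern ι p`: product Bernoulli measure on `ι → Bool`, mass `p` at `true` (open);
* `IsBondPath ω N x γ`, `IsSitePath ω N x γ`: `γ` is an open self-avoiding nearest neighbour path
  of length `N` from `x` (all `N` edges open, respectively all `N + 1` vertices open);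
* `bondZx ω N x`, `siteZx ω N x`: the number of these paths;
* `BondInf ω`, `SiteInf ω`: the open cluster of the origin is infinite.

In the theorem `pb`, `ps` are the critical densities of bond and of site percolation (below them
there is almost surely no infinite cluster at the origin, above them there is one with positive
probability; for `d = 2` there is almost surely none at the critical density) and `μb p`, `μs p` the quenched
connective constants.
-/

open MeasureTheory Filter Topology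
open Pool.Agent.H17.IIC
open Pool.Agent.H41.QC

namespace Pool.Agent.Results.MP_a352f3_pr.QuenchedConstantZd

/-- The quenched connective constant of percolation on `ℤ^d` exists, for bond and for site percolation, at every density
if `d = 2` and at every density different from the critical one if `d ≥ 3`. -/
theorem result (d : ℕ) (hd : 2 ≤ d) :
    ∃ (pb ps : ℝ) (μb μs : unitInterval → ℝ), Monotone μb ∧ Monotone μs ∧
      -- bond percolation
      (∀ p : unitInterval,
        1 ≤ μb p ∧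
        ((p : ℝ) < pb → ∀ᵐ ω ∂(prodBern (Sym2 (Fin d → ℤ)) p), ¬ BondInf ω) ∧
        (pb < (p : ℝ) → ¬ ∀ᵐ ω ∂(prodBern (Sym2 (Fin d → ℤ)) p), ¬ BondInf ω) ∧
        (d = 2 → (p : ℝ) = pb → ∀ᵐ ω ∂(prodBern (Sym2 (Fin d → ℤ)) p), ¬ BondInf ω) ∧
        (∀ᵐ ω ∂(prodBern (Sym2 (Fin d → ℤ)) p), ∀ c : ℝ, μb p < c → ∀ K : ℕ, ∀ᶠ N : ℕ in atTop,
          ∀ x : Fin d → ℤ, (∀ i, |x i| ≤ K * N) → (bondZx ω N x : ℝ) ≤ c ^ N) ∧
        (d = 2 ∨ (p : ℝ) ≠ pb → ∀ᵐ ω ∂(prodBern (Sym2 (Fin d → ℤ)) p), BondInf ω →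
          Tendsto (fun N : ℕ => (bondZx ω N 0 : ℝ) ^ (1 / (N : ℝ))) atTop (𝓝 (μb p)))) ∧
      -- site percolation
      (∀ p : unitInterval,
        1 ≤ μs p ∧
        ((p : ℝ) < ps → ∀ᵐ ω ∂(prodBern (Fin d → ℤ) p), ¬ SiteInf ω) ∧
        (ps < (p : ℝ) → ¬ ∀ᵐ ω ∂(prodBern (Fin d → ℤ) p), ¬ SiteInf ω) ∧
        (d = 2 → (p : ℝ) = ps → ∀ᵐ ω ∂(prodBern (Fin d → ℤ) p), ¬ SiteInf ω) ∧
        (∀ᵐ ω ∂(prodBern (Fin d → ℤ) p), ∀ c : ℝ, μs p < c → ∀ K : ℕ, ∀ᶠ N : ℕ in atTop,
          ∀ x : Fin d → ℤ, (∀ i, |x i| ≤ K * N) → (siteZx ω N x : ℝ) ≤ c ^ N) ∧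
        (d = 2 ∨ (p : ℝ) ≠ ps → ∀ᵐ ω ∂(prodBern (Fin d → ℤ) p), SiteInf ω →
          Tendsto (fun N : ℕ => (siteZx ω N 0 : ℝ) ^ (1 / (N : ℝ))) atTop (𝓝 (μs p)))) :=
  Pool.Agent.H98.P2.final_p2 d hd

end Pool.Agent.Results.MP_a352f3_pr.QuenchedConstantZd
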